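import Pool.Agent.Lib.KR.Defs
import Pool.Agent.Lib.HS32.MAll
import Pool.Agent.Lib.HS68.Fun

/-! Project kr24: blueprint. -/

open scoped Classical Topology ContDiff ComplexOrder Matrix Manifold
open Set MeasureTheory Complex Metric Filter

noncomputable section

namespace Pool.Agent.Lib.KR

open Pool.Agent.Lib.SV (E Pluri)
open Pool.Agent.Lib.HS32 Pool.Agent.Lib.GH

/-- From the statement to the manifold layer and back. -/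
def St_KBR : Prop := ∀ (n k : ℕ) (X : Type) [TopologicalSpace X] [ChartedSpace (E n) X]
  [IsManifold 𝓘(ℂ, E n) ω X] [CompactSpace X] [T2Space X] [ConnectedSpace X] (h : X → Mat n),
  Kaehler h → KRicNonpos k h →
  ∃ (M : Mf n) (_ : M.Cpt) (H : M.Fam (Mat n)), M.Kae H ∧ M.KRic H k ∧
    (M.Semi → ∃ m : ℕ, 0 < m ∧ ∀ x : X, ∃ s ∈ Pluri n X m, s x ≠ 0)

/-- The case `k = 1`. -/
def St_KONE : Prop := ∀ (n : ℕ) (M : Mf n) [M.Cpt] (H : M.Fam (Mat n)), 0 < n → M.Kae H →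
  M.KRic H 1 → M.Semi

/-! ### Algebra at a point -/

/-- The curvature tensor of a Kähler metric: symmetries, trace, regularity. -/
def St_KTR : Prop := ∀ (n : ℕ) (h : E n → Mat n) (z : E n), Kn h z →
  (h z).PosDef ∧ (et h z).IsHermitian ∧ HS76.K4 (rm h z) ∧
  (∀ x y v w, star (rm h z x y v w) = rm h z y x w v) ∧
  (∀ w : Fin n → E n, Onb (h z) w → ∀ x y, ∑ j, rm h z x y (w j) (w j) = -sqf (et h z) x y) ∧
  SmM (et h) z ∧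
  (∀ (a β : ℝ) (v : E n), ContinuousAt (fun p : E n × E n => nq (h p.1) p.2) (z, v) ∧
    ContinuousAt (fun p : E n × E n => hK h p.1 p.2) (z, v) ∧
    ContinuousAt (fun p : E n × E n => dK h a β p.1 p.2) (z, v)) ∧
  (∀ (a β : ℝ) (c : ℂ) (v : E n), nq (h z) (c • v) = normSq c * nq (h z) v ∧
    hK h z (c • v) = normSq c ^ 2 * hK h z v ∧ dK h a β z (c • v) = normSq c ^ 2 * dK h a β z v) ∧
  ∀ V : E n → E n, ContDiffAt ℝ ∞ V z → ContDiffAt ℝ ∞ (fun w => nq (h w) (V w)) z ∧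
    ContDiffAt ℝ ∞ (fun w => hK h w (V w)) z

/-- Averaging over frames. -/
def St_KAV : Prop := ∀ (n k : ℕ) (h η : Mat n) (f : T4 n), 2 ≤ k → k < n → h.PosDef →
  η.IsHermitian → HS76.K4 f → (∀ x y v w, star (f x y v w) = f y x w v) →
  (∀ w : Fin n → E n, Onb h w → ∀ x y, ∑ j, f x y (w j) (w j) = -sqf η x y) →
  (∀ w : Fin k → E n, Onb h w → ∀ i, ∑ j, (f (w i) (w i) (w j) (w j)).re ≤ 0) →
  Pt h η f ((k : ℝ) - 1) ((n : ℝ) - k)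

/-- First variations at a null vector. -/
def St_KB1 : Prop := ∀ (n : ℕ) (h η : Mat n) (f : T4 n) (α β : ℝ) (v : E n), Pt h η f α β →
  v ≠ 0 → dD h η f α β v = 0 → Nul h η f α β v ((f v v v v).re / nq h v ^ 2)

/-- Second variations at a null vector. -/
def St_KB2 : Prop := ∀ (n : ℕ) (h η : Mat n) (f : T4 n) (α β : ℝ) (v w : E n), Pt h η f α β →
  nq h v = 1 → dD h η f α β v = 0 → sqf h w v = 0 →
  (∀ c : ℂ, nq h (c • v + w) = normSq c + nq h w ∧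
    nq η (c • v + w) = normSq c * (β / α * (f v v v v).re) + nq η w ∧
    dD h η f α β w ≤ dD h η f α β (c • v + w)) ∧
  2 * β * ‖f w v w v‖ ≤ β * (1 + 4 / α) * (f v v v v).re * nq h w + α * nq η w ∧
  -dD h η f α β w ≤ (f w w w w).re - (f v v v v).re * nq h w ^ 2 ∧
  (f w w w w).re - (f v v v v).re * nq h w ^ 2 ≤ (α - 1) / β * dD h η f α β w

/-- A null vector of non-negative curvature. -/
def St_KBP : Prop := ∀ (n : ℕ) (h η : Mat n) (f : T4 n) (α β : ℝ) (v : E n), Pt h η f α β →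
  nq h v = 1 → dD h η f α β v = 0 → 0 ≤ (f v v v v).re →
  ∀ X, (f v v v v).re / 24 * nq h X ^ 2 ≤ dD h η f (α + α / (12 * β)) β X

/-- A null vector of negative curvature. -/
def St_KBM : Prop := ∀ (n : ℕ) (h η : Mat n) (f : T4 n) (α β : ℝ) (v : E n), Pt h η f α β →
  nq h v = 1 → dD h η f α β v = 0 → (f v v v v).re < 0 →
  (∀ w, sqf h w v = 0 → 0 ≤ nq η w) ∧
  (∀ X, 2 * β / α * -(f v v v v).re * (nq h X - normSq (sqf h X v)) ^ 2 ≤ dD h η f α β X) ∧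
  ∀ X, dD h η f α β X = 0 → ∃ c : ℂ, X = c • v

/-- A null vector of zero curvature. -/
def St_KB0 : Prop := ∀ (n : ℕ) (α β : ℝ), ∃ c : ℝ, 0 < c ∧ ∀ (h η : Mat n) (f : T4 n) (v : E n),
  Pt h η f α β → nq h v = 1 → dD h η f α β v = 0 → (f v v v v).re = 0 → η.PosSemidef ∧
  ∀ (w : Fin n → E n) (a : Fin n → ℝ), Onb h w → (∀ i, 0 ≤ a i) →
    ∑ i, ∑ j, a i * a j * (f (w i) (w i) (w j) (w j)).re ≤ c * ∑ i, a i ^ 2 * nq η (w i)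

/-- The twisted lemma of Royden. -/
def St_KROY : Prop := ∀ (n : ℕ) (h : E n → Mat n) (z : E n) (b ξ : Mat n) (a β c : ℝ), Kn h z →
  b.IsHermitian → ξ.PosSemidef → 0 < β → 0 ≤ c → (∀ X, c * nq b X ^ 2 ≤ dK h a β z X) →
  c / (2 * β) * (ξ * b).trace.re ^ 2 ≤ qt h (a / (2 * β)) ξ z

/-- The strong form of the hypothesis. -/
def St_KST : Prop := ∀ (n : ℕ) (M : Mf n) (H : M.Fam (Mat n)) (α β : ℝ), M.Kae H → M.KPt H α β →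
  (M.All fun e z => ∃ v, nq (H e z) v = 1 ∧ dK (H e) α β z v = 0 ∧ hK (H e) z v = 0) →
  ∃ c : ℝ, 0 < c ∧ M.KSt H c ∧ M.KTw H c

/-! ### The twisted family -/

/-- The terms of the identity of Chern and Lu. -/
def St_KCL : Prop := ∀ (n : ℕ) (M : Mf n) (G H : M.Fam (Mat n)) (lam : ℝ), 0 < n → M.Kae G →
  M.Kae H → M.Sm (M.tr G H) ∧ (∀ x, 0 < M.tr G H x) ∧ M.Sm (M.keg G H) ∧ M.Sm (M.kqT G H lam) ∧
  M.Rep (M.keg G H) (fun e => egz (G e) (H e)) ∧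
  M.Rep (M.kqT G H lam) (fun e z => qt (H e) lam (G e z)⁻¹ z) ∧ (∀ x, 0 ≤ M.keg G H x) ∧
  (M.KTw H lam → ∀ x, 0 ≤ M.kqT G H lam x) ∧
  ∀ x, M.lap G (fun y => Real.log (M.tr G H y)) x =
    (M.keg G H x + M.kqT G H lam x + M.ip G H (M.ric G) x - lam * M.ip G H (-M.ric H) x) /
      M.tr G H x - lam * M.tr G (-M.ric H) x

/-- The twisted inequality of Chern and Lu. -/
def St_KCT : Prop := ∀ (n : ℕ) (M : Mf n) (H B : M.Fam (Mat n)) (lam ε : ℝ) (u : M.X → ℝ),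
  0 < n → M.Kae H → 0 < lam → M.Form B → M.Le (lam • -M.ric H) B → 0 < ε → M.SolB H B ε u →
  ∀ x, M.keg (M.gB H B ε u) H x / M.tr (M.gB H B ε u) H x +
      M.kqT (M.gB H B ε u) H lam x / M.tr (M.gB H B ε u) H x - (1 + lam / (1 + lam) * n) +
      lam / (1 + lam) * (ε * M.tr (M.gB H B ε u) H x) ≤
    M.lap (M.gB H B ε u) (fun y => Real.log (M.tr (M.gB H B ε u) H y) - lam / (1 + lam) * u y) x

/-- The Schwarz lemma. -/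
def St_KS0 : Prop := ∀ (n : ℕ) (M : Mf n) [M.Cpt] (H B : M.Fam (Mat n)) (lam ε₀ : ℝ), 0 < n →
  M.Kae H → 0 < lam → M.KTw H lam → M.Form B → M.Le (lam • -M.ric H) B →
  ∃ (C : ℝ) (N : ℕ), 1 ≤ C ∧ ∀ ε ∈ Ioc (0 : ℝ) ε₀, ∀ u, M.SolB H B ε u → ∀ x, u x ≤ C ∧
    -u x ≤ n * Real.log (M.tr (M.gB H B ε u) H x) ∧ M.tr (M.gB H B ε u) H x ≤ C * (ε₀ / ε) ^ N

/-- Existence. -/
def St_KEX : Prop := ∀ (n : ℕ) (M : Mf n) [M.Cpt] (H B : M.Fam (Mat n)) (lam : ℝ), 0 < n →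
  M.Kae H → 0 < lam → M.KTw H lam → M.Clo B → M.Le (lam • -M.ric H) B →
  ∀ ε : ℝ, 0 < ε → ∃ u, M.SolB H B ε u

/-- The volumes. -/
def St_KVO : Prop := ∀ (n : ℕ) (M : Mf n) [M.Cpt] (H : M.Fam (Mat n)) (lam ε : ℝ) (u : M.X → ℝ),
  M.Kae H → 0 < lam → M.SolB H (lam • -M.ric H) ε u →
  0 < M.vv (M.gB H (lam • -M.ric H) ε u) ∧
  M.vv (M.gB H (lam • -M.ric H) ε u) = (1 + lam) ^ n * M.vol H (ε / (1 + lam)) ∧
  ∀ t : ℝ, M.mn (M.gB H (lam • -M.ric H) ε u) (M.dq (M.gB H (lam • -M.ric H) ε u)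
    (M.gB H (lam • -M.ric H) ε u + t • H)) = M.vol H ((ε + t) / (1 + lam)) / M.vol H (ε / (1 + lam))

/-- The normalized potentials. -/
def St_KPH : Prop := ∀ (n : ℕ) (M : Mf n) [M.Cpt] (H B : M.Fam (Mat n)), 0 < n → M.Kae H →
  M.Clo B → ∃ C : ℝ, ∀ ε ∈ Ioc (0 : ℝ) 1, ∀ u, M.SolB H B ε u →
    ∃ a : ℝ, M.KFm H C (M.gB H B ε u) fun x => u x - a

/-- The first sequence. -/
def St_KQ1 : Prop := ∀ (n : ℕ) (M : Mf n) [M.Cpt] (H : M.Fam (Mat n)) (lam : ℝ) (k : ℕ), 0 < n →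
  M.Kae H → 0 < lam → M.KTw H lam → M.Ord H k → 0 < k → ∃ C G φ, M.KSq1 H lam C G φ

/-- A null vector at every point. -/
def St_KNU : Prop := ∀ (n : ℕ) (M : Mf n) [M.Cpt] (H : M.Fam (Mat n)) (a β C : ℝ)
  (G : ℕ → M.Fam (Mat n)) (φ : ℕ → M.X → ℝ), 0 < n → M.Kae H → 0 < β → M.KDp H a β →
  M.KSq1 H (a / (2 * β)) C G φ → M.KNv H a β

/-! ### No null vector has negative curvature -/

/-- The minimum over the null vectors. -/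
def St_KMI : Prop := ∀ (n : ℕ) (M : Mf n) [M.Cpt] (H : M.Fam (Mat n)) (a β : ℝ), M.Kae H →
  M.KNv H a β → ∃ e ∈ M.C, ∃ z ∈ e.target, ∃ v, nq (H e z) v = 1 ∧ dK (H e) a β z v = 0 ∧
    M.All fun e' z' => ∀ v', nq (H e' z') v' = 1 → dK (H e') a β z' v' = 0 →
      hK (H e) z v ≤ hK (H e') z' v'

/-- The sign of the curvature of the null vectors persists. -/
def St_KNR : Prop := ∀ (n : ℕ) (h : E n → Mat n) (a β : ℝ) (z : E n), Kn h z →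
  (∀ v, nq (h z) v = 1 → dK h a β z v = 0 → hK h z v < 0) →
  ∀ᶠ w in 𝓝 z, ∀ v, nq (h w) v = 1 → dK h a β w v = 0 → hK h w v < 0

/-- A simple negative eigenvalue has a smooth eigenvector. -/
def St_KEI : Prop := ∀ (n : ℕ) (h η : E n → Mat n) (z : E n),
  (∀ᶠ w in 𝓝 z, SmM h w ∧ SmM η w ∧ (h w).PosDef ∧ (η w).IsHermitian ∧
    ∃ (v : E n) (t : ℝ), v ≠ 0 ∧ t < 0 ∧ η w *ᵥ v = (t : ℂ) • h w *ᵥ v ∧
      ∀ y, sqf (h w) y v = 0 → 0 ≤ nq (η w) y) →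
  ∃ (V : E n → E n) (i : Fin n), ∀ᶠ w in 𝓝 z, ContDiffAt ℝ ∞ V w ∧ V w i = 1 ∧
    ∀ (v : E n) (t : ℝ), t < 0 → η w *ᵥ v = (t : ℂ) • h w *ᵥ v → ∃ c : ℂ, v = c • V w

/-- Inequalities for matrices. -/
def St_KAL : Prop := ∀ n : ℕ, (∀ G H P : Mat n, G.PosDef → H.PosDef → P * P = P →
    (H * P).IsHermitian → P.trace = 1 →
    0 ≤ qpm G H P ∧ qpm G H P ≤ 1 ∧ ((1 - P) * phm G H).trace = qpm G H P ∧
    qpm G H P * (G⁻¹ * H).trace.re = (G⁻¹ * (H * (1 - P))).trace.re) ∧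
  ∀ C : ℝ, 1 ≤ C → ∃ D : ℝ, 0 < D ∧ ∀ G H P : Mat n, G.PosDef → H.PosDef →
    (C • H - 1).PosSemidef → (C • (1 : Mat n) - H).PosSemidef → P * P = P →
    (H * P).IsHermitian → P.trace = 1 →
    (∀ i j, ‖P i j‖ ≤ D ∧ ‖(phm G H - P) i j‖ ^ 2 ≤ D * qpm G H P) ∧
    ∀ (T : Fin n → Mat n) (l i j : Fin n),
      ‖((1 - P) * ((G⁻¹ * H).trace⁻¹ • (G⁻¹ * (T l)ᴴ * H))) i j‖ ^ 2 ≤ D * qpm G H P *
        ((H⁻¹ * G).trace.re * ((HS76.ip3 G⁻¹ G⁻¹ H T T).re / (G⁻¹ * H).trace.re))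

/-- Bounds for the `(0,1)` derivatives of the normalized field. -/
def St_KD1 : Prop := ∀ (n : ℕ) (M : Mf n) [M.Cpt] (H : M.Fam (Mat n)), 0 < n → M.Kae H →
  ∀ e ∈ M.C, ∀ (K : Set (E n)) (P : E n → Mat n), IsCompact K → K ⊆ e.target →
  (∀ z ∈ K, Pn (H e) P z) → ∃ D : ℝ, 0 < D ∧ ∀ G, M.Kae G → ∀ z ∈ K,
    SmM (fun w => (1 - P w) * phm (G e w) (H e w) * P w) z ∧
    ContDiffAt ℝ ∞ (fun w => qpm (G e w) (H e w) (P w)) z ∧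
    0 ≤ qpm (G e z) (H e z) (P z) ∧ qpm (G e z) (H e z) (P z) ≤ 1 ∧
    qpm (G e z) (H e z) (P z) * M.tr G H (e.symm z) =
      ((G e z)⁻¹ * (H e z * (1 - P z))).trace.re ∧ ∀ l i j,
    ‖((1 - P z) * phm (G e z) (H e z) * P z) i j‖ ^ 2 ≤ D * qpm (G e z) (H e z) (P z) ∧
    ‖(dMb l (fun w => (1 - P w) * phm (G e w) (H e w) * P w) z + dMb l P z * P z) i j‖ ^ 2 ≤
      D * qpm (G e z) (H e z) (P z) *
        (1 + M.tr H G (e.symm z) * (M.keg G H (e.symm z) / M.tr G H (e.symm z))) ∧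
    ‖dzb l (fun w => (qpm (G e w) (H e w) (P w) : ℂ)) z‖ ^ 2 ≤ D * qpm (G e z) (H e z) (P z) *
      (1 + M.tr H G (e.symm z) * (M.keg G H (e.symm z) / M.tr G H (e.symm z)))

/-- The logarithmic cut-off. -/
def St_KWK : Prop := ∀ (n : ℕ) (c : E n) (ρ C : ℝ) (l : Fin n) (a : E n → ℂ) (σ : ℕ → E n → ℂ)
  (q φ Ω : ℕ → E n → ℝ), (∀ z ∈ closedBall c ρ, ContDiffAt ℝ ∞ a z) →
  (∀ j, ContinuousOn (Ω j) (closedBall c ρ) ∧ ∫ z in closedBall c ρ, Ω j z ≤ C ∧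
    ∫ z in closedBall c ρ, -φ j z ≤ C ∧ ∀ z ∈ closedBall c ρ, ContDiffAt ℝ ∞ (σ j) z ∧
      ContDiffAt ℝ ∞ (q j) z ∧ ContDiffAt ℝ ∞ (φ j) z ∧ 0 ≤ q j z ∧ q j z ≤ 1 ∧ φ j z ≤ 0 ∧
      ‖σ j z‖ ≤ C * √(q j z) ∧
      Real.exp (φ j z / 2) * ‖dzb l (fun w => (φ j w : ℂ)) z‖ ≤ Ω j z ∧
      Real.exp (φ j z / 2) * ‖dzb l (fun w => (q j w : ℂ)) z‖ ≤ √(q j z) * Ω j z ∧
      Real.exp (φ j z / 2) * ‖dzb l (σ j) z + a z‖ ≤ √(q j z) * Ω j z) →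
  Tendsto (fun j => ∫ z in closedBall c ρ, Real.exp (φ j z) * q j z ^ 2) atTop (𝓝 0) →
  ∀ z ∈ ball c ρ, a z = 0

/-- Bounds for gradients and for the `(0,1)` derivative of `ε G⁻¹ H`. -/
def St_KD2 : Prop := ∀ (n : ℕ) (M : Mf n) [M.Cpt] (H : M.Fam (Mat n)), 0 < n → M.Kae H →
  ∀ e ∈ M.C, ∀ K : Set (E n), IsCompact K → K ⊆ e.target → ∃ C : ℝ, 0 < C ∧
    (∀ f, M.Sm f → ∀ z ∈ K, ∀ l, ‖dzb l (M.lc f e) z‖ ^ 2 ≤ C * M.gr H f f (e.symm z)) ∧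
    ∀ G (ε : ℝ), M.Kae G → 0 < ε → (∀ x, ε * M.tr G H x ≤ n) → ∀ z ∈ K, ∀ i j,
      ‖M.qE G H ε e z i j‖ ≤ C ∧ ∀ l, ‖dMb l (M.qE G H ε e) z i j‖ ^ 2 ≤
        C * (M.tr H G (e.symm z) * (ε * (en (G e) (H e) (H e) z).re))

/-- The line field is holomorphic. -/
def St_KH1 : Prop := ∀ (n : ℕ) (M : Mf n) [M.Cpt] (H : M.Fam (Mat n)) (lam C c : ℝ)
  (G : ℕ → M.Fam (Mat n)) (φ : ℕ → M.X → ℝ), 0 < n → M.Kae H → M.KTw H lam →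
  M.KSq1 H lam C G φ → 0 < c → ∀ e ∈ M.C, ∀ z ∈ e.target, ∀ P : E n → Mat n, Pn (H e) P z →
  (∀ᶠ w in 𝓝 z, ∀ ξ : Mat n, ξ.PosSemidef →
    c * (ξ * (H e w * (1 - P w))).trace.re ^ 2 ≤ qt (H e) lam ξ w) →
  ∀ᶠ w in 𝓝 z, ∀ l, dMb l P w * P w = 0

/-- The projection on a line field. -/
def St_KPJ : Prop := ∀ (n : ℕ) (h : E n → Mat n) (V : E n → E n) (i : Fin n) (z : E n), Kn h z →
  (∀ᶠ w in 𝓝 z, ContDiffAt ℝ ∞ V w ∧ V w i = 1) → Pn h (fun w => pj (h w) (V w)) z ∧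
  (∀ᶠ w in 𝓝 z, (h w * (1 - pj (h w) (V w))).IsHermitian ∧ ∀ X, nq (h w * (1 - pj (h w) (V w))) X =
    nq (h w) X - normSq (sqf (h w) X (V w)) / nq (h w) (V w)) ∧
  ((∀ᶠ w in 𝓝 z, ∀ l, dMb l (fun w => pj (h w) (V w)) w * pj (h w) (V w) = 0) →
    ∀ᶠ w in 𝓝 z, DifferentiableAt ℂ V w)

/-- The field of null vectors is holomorphic. -/
def St_KHO : Prop := ∀ (n : ℕ) (M : Mf n) [M.Cpt] (H : M.Fam (Mat n)) (α β C : ℝ)
  (G : ℕ → M.Fam (Mat n)) (φ : ℕ → M.X → ℝ), M.Kae H → M.KPt H α β →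
  M.KSq1 H (α / (2 * β)) C G φ → ∀ e ∈ M.C, ∀ z ∈ e.target, ∀ (V : E n → E n) (i : Fin n),
  (∀ᶠ w in 𝓝 z, ContDiffAt ℝ ∞ V w ∧ V w i = 1 ∧ dK (H e) α β w (V w) = 0 ∧
    hK (H e) w (V w) < 0) → ∀ᶠ w in 𝓝 z, DifferentiableAt ℂ V w

/-- The identity of Bianchi. -/
def St_KI1 : Prop := ∀ (n : ℕ) (h : E n → Mat n) (α β : ℝ) (V : E n → E n) (t : E n → ℝ)
  (z : E n), 0 < α → Hv h α β V t z →
  t z * (1 + 2 / α : ℝ) *
      (nq (h z) (V z) * (cv h V z).trace - sqf (h z) (cv h V z *ᵥ V z) (V z)) =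
    -(1 + β / α : ℝ) * nq (h z) (V z) * ∑ k, V z k * dz k (fun w => (t w : ℂ)) z

/-- The contradiction at the minimum. -/
def St_KI2 : Prop := ∀ (n : ℕ) (h : E n → Mat n) (α β : ℝ) (V : E n → E n) (t : E n → ℝ)
  (z : E n), 0 < α → 0 < β → Hv h α β V t z → IsLocalMin t z → 0 ≤ t z

/-- No null vector has negative curvature. -/
def St_KNG : Prop := ∀ (n : ℕ) (M : Mf n) [M.Cpt] (H : M.Fam (Mat n)) (α β C : ℝ)
  (G : ℕ → M.Fam (Mat n)) (φ : ℕ → M.X → ℝ), M.Kae H → M.KPt H α β → M.KNv H α β →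
  M.KSq1 H (α / (2 * β)) C G φ →
  M.All fun e z => ∀ v, nq (H e z) v = 1 → dK (H e) α β z v = 0 → 0 ≤ hK (H e) z v

/-! ### The projection -/

/-- The terms of the identity of Chern and Lu in the strong form. -/
def St_KYC : Prop := ∀ (n : ℕ) (M : Mf n) (G H : M.Fam (Mat n)) (c ε : ℝ), M.Kae G → M.Kae H →
  M.KSt H c → 0 < ε → M.Sm (M.kyC G H c) ∧ (∀ x, 0 ≤ M.kyC G H c x) ∧
  M.Sm (M.tr G (-M.ric H)) ∧ (∀ x, 0 ≤ M.tr G (-M.ric H) x) ∧ M.End (M.qE G H ε) ∧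
  M.All fun e z => (H e z * M.qE G H ε e z).PosSemidef ∧
    (en (G e) (H e) (H e) z).re ≤ M.kyC G H c (e.symm z) ∧
    (M.qE G H ε e z * (H e z)⁻¹ * et (H e) z).trace.re = ε * M.tr G (-M.ric H) (e.symm z) ∧
    (qx (H e) (M.qE G H ε e z * (H e z)⁻¹) z).re +
      c * (M.qE G H ε e z * M.qE G H ε e z * (H e z)⁻¹ * et (H e) z).trace.re ≤
      ε * (ε * M.kyC G H c (e.symm z))

/-- The second sequence. -/
def St_KQ2 : Prop := ∀ (n : ℕ) (M : Mf n) [M.Cpt] (H : M.Fam (Mat n)) (c : ℝ) (k : ℕ), 0 < n →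
  M.Kae H → 0 < c → M.KSt H c → M.KTw H c → M.Ord H k → ∃ C G ε φ, M.KSq2 H c k C G ε φ

/-- The local holomorphic limit. -/
def St_KLO : Prop := ∀ (n : ℕ) (M : Mf n) [M.Cpt] (H : M.Fam (Mat n)) (c : ℝ) (k : ℕ) (C : ℝ)
  (G : ℕ → M.Fam (Mat n)) (ε : ℕ → ℝ) (φ : ℕ → M.X → ℝ) (l : Ultrafilter ℕ), 0 < n → M.Kae H →
  M.KSt H c → M.KSq2 H c k C G ε φ → (l : Filter ℕ) ≤ atTop → ∀ e ∈ M.C,
  ∀ (z₀ : E n) (ρ : ℝ), closedBall z₀ ρ ⊆ e.target →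
  ∃ P : E n → Mat n, (∀ i j, DifferentiableOn ℂ (fun z => P z i j) (ball z₀ ρ)) ∧
    ∀ K : Set (E n), IsCompact K → K ⊆ ball z₀ ρ → ∀ i j,
      Tendsto (fun a => ∫ z in K, ‖(M.qE (G a) H (ε a) e z - P z) i j‖) l (𝓝 0)

/-- The limit is a projection of rank `k`. -/
def St_KDE : Prop := ∀ (n : ℕ) (M : Mf n) [M.Cpt] (H P : M.Fam (Mat n)) (c : ℝ) (k : ℕ) (C : ℝ)
  (G : ℕ → M.Fam (Mat n)) (ε : ℕ → ℝ) (φ : ℕ → M.X → ℝ) (l : Filter ℕ) [l.NeBot], 0 < n →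
  M.Kae H → M.KSq2 H c k C G ε φ → l ≤ atTop → M.HolSA H P →
  M.L1c H l (fun a => M.qE (G a) H (ε a)) P →
  (∀ s : ℝ, M.All fun e z => (1 + s • P e z).det = ((1 + s : ℝ) : ℂ) ^ k) ∧
    M.All fun e z => P e z * P e z = P e z

/-- The equality case at a point. -/
def St_KFA : Prop := ∀ (n : ℕ) (h : E n → Mat n) (z : E n) (P : Mat n), Kn h z → P * P = P →
  (h z * P).IsHermitian → (∀ i j, th h i j z * P = P * th h i j z) →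
  (∀ v, hK h z (P *ᵥ v) ≤ 0) → (qx h (P * (h z)⁻¹) z).re ≤ 0 → ∀ i j, th h i j z * P = 0

/-- The curvature vanishes on the image of the limit. -/
def St_KFL : Prop := ∀ (n : ℕ) (M : Mf n) [M.Cpt] (H P : M.Fam (Mat n)) (a β c : ℝ) (k : ℕ)
  (C : ℝ) (G : ℕ → M.Fam (Mat n)) (ε : ℕ → ℝ) (φ : ℕ → M.X → ℝ) (l : Filter ℕ) [l.NeBot],
  M.Kae H → 0 < β → M.KDp H a β → M.KSt H c → M.KSq2 H c k C G ε φ → l ≤ atTop → M.HolSA H P →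
  M.L1c H l (fun a => M.qE (G a) H (ε a)) P → (M.All fun e z => P e z * P e z = P e z) →
  M.All fun e z => ∀ i j, th (H e) i j z * P e z = 0

/-! ### Positivity -/

/-- The torsion vanishes, and the zero field. -/
def St_KT0 : Prop := ∀ (n : ℕ) (M : Mf n) (H : M.Fam (Mat n)), M.Kae H → M.Fl0 H 0 0 ∧
  ∀ P k, M.Fl0 H P k → M.Fl1 H P k

/-- The twisted class has positive volume. -/
def St_KV3 : Prop := ∀ (n : ℕ) (M : Mf n) [M.Cpt] (H P : M.Fam (Mat n)) (k : ℕ) (lam : ℝ),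
  M.Kae H → 0 < lam → M.Fl1 H P k → M.Ord H k →
  0 < ∫ x, M.dq H (lam • -M.ric H + H * P - M.ric H) x ∂M.mu H

/-- Polynomial bounds for the twisted equation. -/
def St_KSB : Prop := ∀ (n : ℕ) (M : Mf n) [M.Cpt] (H B : M.Fam (Mat n)) (lam : ℝ), 0 < n →
  M.Kae H → 0 < lam → M.KTw H lam → M.Form B → M.Le (lam • -M.ric H) B →
  ∃ (C : ℝ) (N : ℕ), 1 ≤ C ∧ ∀ ε ∈ Ioc (0 : ℝ) 1, ∀ u, M.SolB H B ε u →
    M.Le ((ε ^ N / C) • H) (M.gB H B ε u) ∧ M.Le (M.gB H B ε u) ((C * (ε ^ N)⁻¹ ^ n) • H) ∧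
    ∀ x, n * Real.log (ε ^ N / C) ≤ u x ∧ u x ≤ C ∧
      -u x ≤ n * Real.log (M.tr (M.gB H B ε u) H x)

/-- Polynomial bound for the gradient of the trace. -/
def St_KGR : Prop := ∀ (n : ℕ) (M : Mf n) [M.Cpt] (H B : M.Fam (Mat n)) (C₀ : ℝ), 0 < n →
  M.Kae H → M.Form B → 1 ≤ C₀ → ∃ (C : ℝ) (N : ℕ), 1 ≤ C ∧ ∀ δ ∈ Ioc (0 : ℝ) 1,
    ∀ ε ∈ Ioc (0 : ℝ) 1, ∀ G, M.Kae G →
    (M.All fun e z => M.ric G e z = ε • H e z + B e z - G e z) → M.Le ((δ / C₀) • H) G →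
    M.Le G ((C₀ * δ⁻¹ ^ n) • H) → ∀ x, M.gr H (M.tr G H) (M.tr G H) x ≤ (C * δ⁻¹ ^ N) ^ 2

/-- The trace is small. -/
def St_KSM : Prop := ∀ (n : ℕ) (M : Mf n) [M.Cpt] (H B : M.Fam (Mat n)) (μ c C C₁ C₂ : ℝ)
  (N N' : ℕ), 0 < n → M.Kae H → M.Form B → 0 ≤ μ → 0 < c → 1 ≤ C₁ → 1 ≤ C₂ →
  (∀ ε ∈ Ioc (0 : ℝ) 1, ∀ u, M.SolB H B ε u →
    (∀ x, -(1 + μ * n) ≤
        M.lap (M.gB H B ε u) (fun y => Real.log (M.tr (M.gB H B ε u) H y) - μ * u y) x ∧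
      n * Real.log (ε ^ N / C₁) ≤ u x ∧ u x ≤ C₁ ∧
      -u x ≤ n * Real.log (M.tr (M.gB H B ε u) H x) ∧
      M.gr H (M.tr (M.gB H B ε u) H) (M.tr (M.gB H B ε u) H) x ≤ (C₂ * ε⁻¹ ^ N') ^ 2) ∧
    c ≤ (M.mu (M.gB H B ε u)).real univ ∧
    ∫ x, M.dq (M.gB H B ε u) (M.gB H B ε u + H) x ∂M.mu (M.gB H B ε u) ≤ C) →
  ∀ᶠ ε in 𝓝[>] (0 : ℝ), ∀ u, M.SolB H B ε u → ∀ x, ε * M.tr (M.gB H B ε u) H x < 1

/-- From the flat field to the conclusion. -/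
def St_KTL : Prop := ∀ (n : ℕ) (M : Mf n) [M.Cpt] (H P : M.Fam (Mat n)) (k : ℕ) (lam : ℝ), 0 < n →
  M.Kae H → 0 < lam → M.KTw H lam → M.Fl1 H P k → M.Ord H k → M.Semi

/-! ### Assembly -/

theorem tw_of (hRO : St_KROY) {n : ℕ} {M : Mf n} {H : M.Fam (Mat n)} {a β : ℝ} (hH : M.Kae H)
    (hβ : 0 < β) (hd : M.KDp H a β) : M.KTw H (a / (2 * β)) := fun e he z hz ξ hξ => by
  have := hRO n (H e) z 0 ξ a β 0 (Mf.kn_of hH e he z hz) Matrix.isHermitian_zero hξ hβ le_rfl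
    fun X => by simpa only [zero_mul] using hd e he z hz X
  simpa only [zero_div, zero_mul] using this

theorem clo_et {n : ℕ} {M : Mf n} {H : M.Fam (Mat n)} (hH : M.Met H) (lam : ℝ) :
    M.Clo (lam • -M.ric H) := ((mHES n M).2.2.2.2.2.2.2.2.1 H hH).neg.smul lam

theorem ord_of (hVOL : HS.St_VOL) (hEX : St_KEX) (hVO : St_KVO) {n : ℕ} {M : Mf n} [M.Cpt]
    {H : M.Fam (Mat n)} {lam : ℝ} (hn : 0 < n) (hH : M.Kae H) (hl : 0 < lam) (ht : M.KTw H lam) :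
    ∃ k, M.Ord H k := by
  refine (hVOL n M H hH).2 fun δ hδ => ?_
  have h1 : 0 < 1 + lam := by linarith
  obtain ⟨u, hu⟩ := hEX n M H _ lam hn hH hl ht (clo_et hH.toMet lam) (Mf.Le.refl _) _
    (mul_pos hδ h1)
  obtain ⟨a, b, -⟩ := hVO n M H lam _ u hH hl hu
  rw [b, mul_div_cancel_right₀ _ h1.ne'] at a
  exact (mul_pos_iff_of_pos_left (pow_pos h1 n)).1 a

/-- The strong form of the hypothesis. -/
theorem st_of (hBP : St_KBP) (hRO : St_KROY) (hST : St_KST) (hQ1 : St_KQ1) (hNU : St_KNU)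
    (hNG : St_KNG) {n k : ℕ} {M : Mf n} [M.Cpt] {H : M.Fam (Mat n)} {α β : ℝ} (hn : 0 < n)
    (hH : M.Kae H) (hα : 0 < α) (hβ : 0 < β) (hp : M.KPt H α β) (ho : M.Ord H k) (hk : 0 < k) :
    ∃ c : ℝ, 0 < c ∧ M.KSt H c ∧ M.KTw H c := by
  have nv : ∀ a : ℝ, 0 < a → M.KDp H a β → M.KNv H a β ∧ ∃ C G φ, M.KSq1 H (a / (2 * β)) C G φ :=
    fun a ha hd => by
      obtain ⟨C, G, φ, hs⟩ := hQ1 n M H _ k hn hH (by positivity) (tw_of hRO hH hβ hd) ho hk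
      exact ⟨hNU n M H a β C G φ hn hH hβ hd hs, C, G, φ, hs⟩
  obtain ⟨n1, C, G, φ, hs⟩ := nv α hα fun e he z hz => (hp e he z hz).nn
  have n2 := hNG n M H α β C G φ hH hp n1 hs
  have n3 : M.KDp H (α + α / (12 * β)) β := fun e he z hz X => by
    obtain ⟨v, v1, v2⟩ := n1 e he z hz
    have h0 := n2 e he z hz v v1 v2
    exact le_trans (mul_nonneg (div_nonneg h0 (by norm_num)) (sq_nonneg _))
      (hBP n _ _ _ α β v (hp e he z hz) v1 v2 h0 X)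
  refine hST n M H α β hH hp fun e he z hz => ?_
  obtain ⟨v, v1, v2⟩ := n1 e he z hz
  obtain ⟨X, x1, x2⟩ := (nv _ (by positivity) n3).1 e he z hz
  have h0 := n2 e he z hz v v1 v2
  have h1 := (hBP n _ _ _ α β v (hp e he z hz) v1 v2 h0 X).trans_eq x2
  rw [x1] at h1
  exact ⟨v, v1, v2, le_antisymm (by unfold hK; linarith) h0⟩

/-- The flat field. -/
theorem fl0_of (hYC : St_KYC) (hQ2 : St_KQ2) (hLO : St_KLO) (hGLUE : HS.St_GLUE)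
    (hPA : RB.St_RPA) (hDE : St_KDE) (hFL : St_KFL) {n k : ℕ} {M : Mf n} [M.Cpt]
    {H : M.Fam (Mat n)} {a β c : ℝ} (hn : 0 < n) (hH : M.Kae H) (hβ : 0 < β) (hd : M.KDp H a β)
    (hc : 0 < c) (h1 : M.KSt H c) (h2 : M.KTw H c) (ho : M.Ord H k) : ∃ P, M.Fl0 H P k := by
  obtain ⟨C, G, ε, φ, hs⟩ := hQ2 n M H c k hn hH hc h1 h2 ho
  have hl : (hyperfilter ℕ : Filter ℕ) ≤ atTop := Nat.hyperfilter_le_atTop
  obtain ⟨P, hP, hL⟩ := hGLUE n M H ℕ (hyperfilter ℕ) (fun j => M.qE (G j) H (ε j)) hH.toMet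
    (Eventually.of_forall fun j =>
      let y := (hYC n M _ H c _ (hs.fm j).kae hH h1 (hs.eps j).1).2.2.2.2
      ⟨y.1, fun e he z hz => (y.2 e he z hz).1.1⟩)
    (hLO n M H c k C G ε φ (hyperfilter ℕ) hn hH h1 hs hl)
  obtain ⟨p1, p2, -⟩ := hPA n M H P hH.toMet hP
  obtain ⟨p3, p4⟩ := hDE n M H P c k C G ε φ _ hn hH hs hl hP hL
  have p5 := hFL n M H P a β c k C G ε φ _ hH hβ hd h1 hs hl hP hL p4
  exact ⟨P, hP, ho.1, p1, p4, p3, p5, fun e he z hz a b =>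
    (p2 e he z hz a b).symm.trans (p5 e he z hz a b)⟩

theorem main_of (hBR : St_KBR) (hONE : St_KONE) (hTR : St_KTR) (hAV : St_KAV) (hBP : St_KBP)
    (hRO : St_KROY) (hST : St_KST) (hEX : St_KEX) (hVO : St_KVO) (hQ1 : St_KQ1) (hNU : St_KNU)
    (hNG : St_KNG) (hYC : St_KYC) (hQ2 : St_KQ2) (hLO : St_KLO) (hDE : St_KDE) (hFL : St_KFL)
    (hT0 : St_KT0) (hTL : St_KTL) (hVOL : HS.St_VOL) (hGLUE : HS.St_GLUE) (hPA : RB.St_RPA)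
    (n k : ℕ) (hk : 0 < k) (hkn : k < n) (X : Type) [TopologicalSpace X] [ChartedSpace (E n) X]
    [IsManifold 𝓘(ℂ, E n) ω X] [CompactSpace X] [T2Space X] [ConnectedSpace X] (h : X → Mat n)
    (hh : Kaehler h) (hc : KRicNonpos k h) :
    ∃ m : ℕ, 0 < m ∧ ∀ x : X, ∃ s ∈ Pluri n X m, s x ≠ 0 := by
  obtain ⟨M, hM, H, hH, hr, h4⟩ := hBR n k X h hh hc
  refine h4 ?_
  have hn : 0 < n := hk.trans hkn
  rcases (Nat.succ_le_of_lt hk).eq_or_lt with rfl | h2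
  · exact hONE n M H hn hH hr
  have hp : M.KPt H ((k : ℝ) - 1) ((n : ℝ) - k) := fun e he z hz =>
    let t := hTR n (H e) z (Mf.kn_of hH e he z hz)
    hAV n k _ _ _ h2 hkn t.1 t.2.1 t.2.2.1 t.2.2.2.1 t.2.2.2.2.1 (hr e he z hz)
  have hα : (0 : ℝ) < (k : ℝ) - 1 := sub_pos.2 (by exact_mod_cast h2)
  have hβ : (0 : ℝ) < (n : ℝ) - k := sub_pos.2 (by exact_mod_cast hkn)
  have hd : M.KDp H _ _ := fun e he z hz => (hp e he z hz).nn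
  have hl : 0 < ((k : ℝ) - 1) / (2 * ((n : ℝ) - k)) := by positivity
  have ht := tw_of hRO hH hβ hd
  obtain ⟨ν, ho⟩ := ord_of hVOL hEX hVO hn hH hl ht
  obtain ⟨P, hP⟩ : ∃ P, M.Fl0 H P ν := by
    rcases Nat.eq_zero_or_pos ν with rfl | h0
    · exact ⟨0, (hT0 n M H hH).1⟩
    · obtain ⟨c, c0, c1, c2⟩ := st_of hBP hRO hST hQ1 hNU hNG hn hH hα hβ hp ho h0
      exact fl0_of hYC hQ2 hLO hGLUE hPA hDE hFL hn hH hβ hd c0 c1 c2 ho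
  exact hTL n M H P ν _ hn hH hl ht ((hT0 n M H hH).2 P ν hP) ho

end Pool.Agent.Lib.KR
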