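import Pool.Agent.Lib.KR.SDefs
import Pool.Agent.Lib.RB.B_RBR

/-! Project kr24: from the statement to the manifold layer and back. -/

open scoped Classical Topology ContDiff ComplexOrder Matrix Manifold
open Set Complex Filter

noncomputable section

namespace Pool.Agent.Lib.KR

open Pool.Agent.Lib.SV (E Pluri)
open Pool.Agent.Lib.HS32 Pool.Agent.Lib.GH Pool.Agent.Lib.HS.BBR Pool.Agent.Lib.RB.R32

variable {n : ℕ} {X : Type} [TopologicalSpace X] [ChartedSpace (E n) X]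
  [IsManifold 𝓘(ℂ, E n) ω X]

theorem fam_rm {h : X → Mat n} (hh : Hermitian h) : (mf n X).All fun e z => ∀ a v,
    (rm (fam h e) z a a v v).re = curvAt h (e.symm z)
      (jm (chartAt (M := X) (E n) (e.symm z) ∘ e.symm) z *ᵥ a)
      (jm (chartAt (M := X) (E n) (e.symm z) ∘ e.symm) z *ᵥ v) := by
  let M : Mf n := mf n X
  let c : M.X → M.Ch := chartAt (M := X) (E n)
  have hc : ∀ x, c x ∈ M.C := fun x y => ⟨cp_chart (X := X) x y, cp_chart (X := X) y x⟩
  have hs : ∀ x, x ∈ (c x).source := mem_chart_source (M := X) (E n)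
  obtain ⟨-, hov, -⟩ := mTR n M
  have m := (fam_ok hh).1
  intro e he z hz a v
  obtain ⟨h1, h2, -, h3, -⟩ := hov _ (hc (e.symm z)) e he _ (hs _) (e.map_target hz)
  rw [Mf.J] at h2
  rw [e.right_inv hz] at h1 h2 h3
  have h4 : SmM (fam h (c (e.symm z))) (c (e.symm z) (e.symm z)) := hh.smooth (e.symm z)
  have h0 : (fam h (c (e.symm z)) (c (e.symm z) (e.symm z))).det ≠ 0 :=
    (m.pos _ (hc _) _ ((c _).map_source (hs _))).det_pos.ne'
  obtain ⟨-, -, h7⟩ := mPB n (c (e.symm z) ∘ e.symm) z (fam h (c (e.symm z))) (fam h e) h1 h2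
    h4 (by
      filter_upwards [h3] with w hw
      have h8 : fam h e (e (e.symm w)) = _ := m.cmp _ (hc (e.symm z)) e he _ hw.2.1 hw.2.2.1
      rw [hw.2.2.2.2.2.1, hw.2.2.2.2.2.2] at h8
      exact h8)
  rw [(h7 h0).2.2.1]
  exact congrArg Complex.re (rm_curv h4 h0 _ _)

theorem bridge [CompactSpace X] [T2Space X] [ConnectedSpace X] {k : ℕ} {h : X → Mat n}
    (hh : Kaehler h) (hr : KRicNonpos k h) : ∃ (M : Mf n) (_ : M.Cpt) (H : M.Fam (Mat n)),
      M.Kae H ∧ (M.All fun e z => ∀ (w : Fin k → E n) (i : Fin k),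
        (∀ a b, star (w a) ⬝ᵥ H e z *ᵥ w b = if a = b then 1 else 0) →
        ∑ j, (rm (H e) z (w i) (w i) (w j) (w j)).re ≤ 0) ∧
      (M.Semi → ∃ m : ℕ, 0 < m ∧ ∀ x : X, ∃ s ∈ Pluri n X m, s x ≠ 0) := by
  let M : Mf n := mf n X
  let c : M.X → M.Ch := chartAt (M := X) (E n)
  have hc : ∀ x, c x ∈ M.C := fun x y => ⟨cp_chart (X := X) x y, cp_chart (X := X) y x⟩
  have hs : ∀ x, x ∈ (c x).source := mem_chart_source (M := X) (E n)
  obtain ⟨hch, hov, -⟩ := mTR n M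
  obtain ⟨g1, g2, -⟩ := fam_ok hh.toHermitian
  refine ⟨M, ⟨‹_›, ‹_›, ‹_›⟩, fam h, ⟨⟨g1.toForm, g2 hh⟩, g1.pos⟩, fun e he z hz w i hw => ?_, ?_⟩
  · simp only [fam_rm hh.toHermitian e he z hz]
    refine hr _ _ (fun i j => ?_) i
    rw [← hw i j, Matrix.star_mulVec, ← Matrix.dotProduct_mulVec, Matrix.mulVec_mulVec,
      Matrix.mulVec_mulVec]
    rfl
  rintro ⟨m, hm, hS⟩
  refine ⟨m, hm, fun x : M.X => ?_⟩
  obtain ⟨s, h1, h2⟩ := hS x
  refine ⟨fun y : M.X => s (c y) (c y y), fun y : M.X => ?_, fun h3 => h2 ?_⟩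
  · refine (h1.hol _ (hc y) _ ((c y).map_source (hs y))).congr_of_eventuallyEq ?_
    filter_upwards [(c y).open_target.mem_nhds ((c y).map_source (hs y))] with w hw
    have h4 : s (c y) (c y ((c y).symm w)) = _ :=
      h1.cmp _ (hc ((c y).symm w)) _ (hc y) _ (hs _) ((c y).map_target hw)
    have h5 := (hov _ (hc ((c y).symm w)) _ (hc y) _ (hs _) ((c y).map_target hw)).1
    rw [Mf.J] at h4
    rw [(c y).right_inv hw] at h4 h5
    rw [h4, ← (mCHN n _ _ h5).2.2.2.2.2.2.1]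
    rfl
  · have h4 : M.ev s x = _ := h1.cmp _ (hc x) _ (hch x).1 x (hs x) (hch x).2
    have h5 : s (c x) (c x x) = 0 := h3
    rw [h4, h5, zero_mul]

end Pool.Agent.Lib.KR
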