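import Pool.Agent.Lib.KR.SDefs
import Pool.Agent.Lib.RB.Blue
import Pool.Agent.Lib.HS76.Pt

/-! Project kr24: the objects. -/

open scoped Classical Topology ContDiff ComplexOrder Matrix
open Set MeasureTheory Complex Metric Filter

set_option linter.unusedVariables false

noncomputable section

namespace Pool.Agent.Lib.KR

open Pool.Agent.Lib.SV (E)
open Pool.Agent.Lib.HS32

variable {n : ℕ}

/-! ### Algebra at a point -/

/-- Tensors with four arguments. -/
abbrev T4 (n : ℕ) : Type := E n → E n → E n → E n → ℂ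

/-- The scalar product, linear in `x` and antilinear in `y`. -/
def sqf (h : Mat n) (x y : E n) : ℂ := star y ⬝ᵥ h *ᵥ x

/-- A unitary family. -/
def Onb {ι : Type} (h : Mat n) (w : ι → E n) : Prop :=
  ∀ i j, star (w i) ⬝ᵥ h *ᵥ w j = if i = j then 1 else 0

/-- The mixed curvature `a η(X) |X| ^ 2 - β H(X)`. -/
def dD (h η : Mat n) (f : T4 n) (a β : ℝ) (X : E n) : ℝ :=
  a * nq η X * nq h X - β * (f X X X X).re

/-- The inequalities at a point. -/
structure Pt (h η : Mat n) (f : T4 n) (α β : ℝ) : Prop where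
  pd : h.PosDef
  he : η.IsHermitian
  k4 : HS76.K4 f
  cj : ∀ x y v w, star (f x y v w) = f y x w v
  n3 : 3 ≤ n
  al : 1 ≤ α
  be : 1 ≤ β
  nn : ∀ X, 0 ≤ dD h η f α β X
  lo : ∀ X W, sqf h X W = 0 → -(dD h η f α β X * nq h W) ≤
    α * (f X X W W).re * nq h X + (f X X X X).re * nq h W
  hi : ∀ X W, sqf h X W = 0 → α * (f X X W W).re * nq h X + (f X X X X).re * nq h W ≤
    (α - 1) / β * (dD h η f α β X * nq h W)

/-- The tensor along a null vector `v` of holomorphic sectional curvature `t`. -/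
structure Nul (h η : Mat n) (f : T4 n) (α β : ℝ) (v : E n) (t : ℝ) : Prop where
  two : ∀ X Y, f v v X Y = t * (-(1 / α : ℝ) * nq h v * sqf h X Y +
    (1 + 1 / α : ℝ) * (sqf h X v * sqf h v Y))
  eig : η *ᵥ v = ((β / α * t : ℝ) : ℂ) • h *ᵥ v
  one : ∀ z w w', sqf h z v = 0 → sqf h w v = 0 → sqf h w' v = 0 → f z v w w' = 0

/-- The orthogonal projection on the line of `v`. -/
def pj (h : Mat n) (v : E n) : Mat n := (nq h v)⁻¹ • (Matrix.vecMulVec v (star v) * h)

/-- The matrix `G⁻¹ H` divided by its trace. -/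
def phm (G H : Mat n) : Mat n := (G⁻¹ * H).trace⁻¹ • (G⁻¹ * H)

/-- The part of its trace orthogonal to the image of `P`. -/
def qpm (G H P : Mat n) : ℝ := ((1 - P) * phm G H).trace.re

/-- The family `D` corrected by the logarithmic derivative of the trace. -/
def dtl (G H : Mat n) (D : Fin n → Mat n) (k : Fin n) : Mat n :=
  D k - ((G⁻¹ * H * D k).trace / (G⁻¹ * H).trace) • (1 : Mat n)

/-! ### Coordinates -/

/-- `h` is a Kähler metric near `z`. -/
def Kn (h : E n → Mat n) (z : E n) : Prop := ∀ᶠ w in 𝓝 z, SmM h w ∧ (h w).PosDef ∧ ClM h w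

/-- Minus the Ricci form. -/
def et (h : E n → Mat n) (z : E n) : Mat n := hess (ld h) z

/-- The mixed curvature of a metric. -/
def dK (h : E n → Mat n) (a β : ℝ) (z X : E n) : ℝ := dD (h z) (et h z) (rm h z) a β X

/-- The holomorphic sectional curvature, not normalized. -/
def hK (h : E n → Mat n) (z X : E n) : ℝ := (rm h z X X X X).re

/-- The twisted curvature term. -/
def qt (h : E n → Mat n) (lam : ℝ) (ξ : Mat n) (z : E n) : ℝ :=
  (qx h ξ z).re + lam * ((ξ * h z).trace.re * (ξ * et h z).trace.re +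
    (ξ * h z * ξ * et h z).trace.re)

/-- The gradient term of the Laplacian of the logarithm of the trace. -/
def egz (G H : E n → Mat n) (z : E n) : ℝ :=
  (HS76.ip3 (G z)⁻¹ (G z)⁻¹ (H z) (dtl (G z) (H z) fun k => df G H k z)
    (dtl (G z) (H z) fun k => df G H k z)).re

/-- `P` is a smooth field of orthogonal projections of rank one near `z`. -/
def Pn (h P : E n → Mat n) (z : E n) : Prop :=
  ∀ᶠ w in 𝓝 z, SmM P w ∧ P w * P w = P w ∧ (h w * P w).IsHermitian ∧ (P w).trace = 1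

/-- The covariant derivative of a vector field. -/
def cv (h : E n → Mat n) (V : E n → E n) (z : E n) : Mat n :=
  Matrix.of fun i k => dz k (fun w => V w i) z + (gam h k z *ᵥ V z) i

/-- A holomorphic field of null vectors near `z`. -/
def Hv (h : E n → Mat n) (α β : ℝ) (V : E n → E n) (t : E n → ℝ) (z : E n) : Prop :=
  Kn h z ∧ ∀ᶠ w in 𝓝 z, DifferentiableAt ℂ V w ∧ V w ≠ 0 ∧ ContDiffAt ℝ ∞ t w ∧
    Nul (h w) (et h w) (rm h w) α β (V w) (t w)

end Pool.Agent.Lib.KR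

namespace Pool.Agent.Lib.HS32.Mf

open Pool.Agent.Lib.SV (E)
open Pool.Agent.Lib.KR

variable {n : ℕ} (M : Mf n)

/-- Non-positive `k`-Ricci curvature. -/
def KRic (H : M.Fam (Mat n)) (k : ℕ) : Prop := M.All fun e z => ∀ w : Fin k → E n,
  Onb (H e z) w → ∀ i, ∑ j, (rm (H e) z (w i) (w i) (w j) (w j)).re ≤ 0

/-- The inequalities hold at all points. -/
def KPt (H : M.Fam (Mat n)) (α β : ℝ) : Prop :=
  M.All fun e z => Pt (H e z) (et (H e) z) (rm (H e) z) α β

/-- The mixed curvature is non-negative. -/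
def KDp (H : M.Fam (Mat n)) (a β : ℝ) : Prop := M.All fun e z => ∀ X, 0 ≤ dK (H e) a β z X

/-- There is a null vector at every point. -/
def KNv (H : M.Fam (Mat n)) (a β : ℝ) : Prop :=
  M.All fun e z => ∃ v, nq (H e z) v = 1 ∧ dK (H e) a β z v = 0

/-- The twisted curvature term is non-negative. -/
def KTw (H : M.Fam (Mat n)) (lam : ℝ) : Prop :=
  M.All fun e z => ∀ ξ : Mat n, ξ.PosSemidef → 0 ≤ qt (H e) lam ξ z

/-- The strong form: the Ricci form is non-positive and controls the curvature term. -/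
def KSt (H : M.Fam (Mat n)) (c : ℝ) : Prop := M.All fun e z => (et (H e) z).PosSemidef ∧
  ∀ ξ : Mat n, ξ.PosSemidef → 0 ≤ (qx (H e) ξ z).re + c * (ξ * H e z * ξ * et (H e) z).trace.re

/-- The gradient term. -/
def keg (G H : M.Fam (Mat n)) : M.X → ℝ := M.ev fun e => egz (G e) (H e)

/-- The twisted curvature term. -/
def kqT (G H : M.Fam (Mat n)) (lam : ℝ) : M.X → ℝ := M.ev fun e z => qt (H e) lam (G e z)⁻¹ z

/-- The sum of the gradient term and of the curvature term, in the strong form. -/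
def kyC (G H : M.Fam (Mat n)) (c : ℝ) (x : M.X) : ℝ := M.yT G H x + c * M.ip G H (-M.ric H) x

/-- The bounds for a metric and its normalized potential. -/
structure KFm (H : M.Fam (Mat n)) (C : ℝ) (G : M.Fam (Mat n)) (φ : M.X → ℝ) : Prop where
  one : 1 ≤ C
  kae : M.Kae G
  sm : M.Sm φ
  np : ∀ x, φ x ≤ 0
  up : ∀ x, M.dq H G x ≤ C * M.vv G
  low : ∀ x, Real.exp (φ x) * M.vv G ≤ C * M.dq H G x
  trc : ∫ x, M.tr H G x ∂M.mu H ≤ C
  l1 : ∫ x, -φ x ∂M.mu H ≤ C
  lev : ∀ L : ℝ, 1 ≤ L → (M.mu H).real {x | φ x ≤ -L} ≤ C / L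
  grd : ∀ L : ℝ, 1 ≤ L → ∫ x, Real.exp (φ x / L) * M.gr H φ φ x ∂M.mu H ≤ C * L

/-- The first sequence. -/
structure KSq1 (H : M.Fam (Mat n)) (lam C : ℝ) (G : ℕ → M.Fam (Mat n)) (φ : ℕ → M.X → ℝ) :
    Prop where
  fm : ∀ j, M.KFm H C (G j) (φ j)
  big : ∀ (j : ℕ) x, (j : ℝ) ≤ M.tr (G j) H x
  e1 : ∀ j, ∫ x, Real.exp (φ j x) * (M.keg (G j) H x / M.tr (G j) H x) ∂M.mu H ≤ C
  q1 : ∀ j, ∫ x, Real.exp (φ j x) * (M.kqT (G j) H lam x / M.tr (G j) H x) ∂M.mu H ≤ C

/-- The second sequence. -/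
structure KSq2 (H : M.Fam (Mat n)) (c : ℝ) (k : ℕ) (C : ℝ) (G : ℕ → M.Fam (Mat n)) (ε : ℕ → ℝ)
    (φ : ℕ → M.X → ℝ) : Prop where
  fm : ∀ j, M.KFm H C (G j) (φ j)
  eps : ∀ j, ε j ∈ Ioc (0 : ℝ) 1
  sb : ∀ j x, ε j * M.tr (G j) H x ≤ n
  y0 : Tendsto (fun j => ∫ x, Real.exp (φ j x) * (ε j * M.kyC (G j) H c x) ∂M.mu H) atTop (𝓝 0)
  r0 : Tendsto (fun j => ∫ x, Real.exp (φ j x) * (ε j * M.tr (G j) (-M.ric H) x) ∂M.mu H)
    atTop (𝓝 0)
  mom : ∀ s : ℝ, 0 < s →
    Tendsto (fun j => M.mn (G j) (M.dq (G j) (G j + (s * ε j) • H))) atTop (𝓝 ((1 + s) ^ k))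

variable {M}

theorem et_eq (H : M.Fam (Mat n)) (e : M.Ch) (z : E n) : (-M.ric H) e z = et (H e) z := neg_neg _

theorem kn_of {H : M.Fam (Mat n)} (hH : M.Kae H) : M.All fun e z => Kn (H e) z :=
  fun e he z hz => (e.open_target.eventually_mem hz).mono fun w hw =>
    ⟨hH.sm e he w hw, hH.pos e he w hw, hH.cl e he w hw⟩

end Pool.Agent.Lib.HS32.Mf
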