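import Pool.Agent.Lib.GH.SDefs

/-! Definition used in the statement: the sign of the `k`-Ricci curvature. -/

open scoped Matrix

noncomputable section

namespace Pool.Agent.Lib.KR

open Pool.Agent.Lib.SV Pool.Agent.Lib.HS Pool.Agent.Lib.GH

variable {n : ℕ} {X : Type} [TopologicalSpace X] [ChartedSpace (E n) X]

/-- The `k`-Ricci curvature of `h` (Ni) is non-positive: for every unitary family `e` of `k`
tangent vectors at a point and every `i`, the sum over `j` of
`R(e i, conj e i, e j, conj e j)` is at most zero. -/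
def KRicNonpos (k : ℕ) (h : X → Mat n) : Prop :=
  ∀ (x : X) (e : Fin k → E n),
    (∀ i j, star (e i) ⬝ᵥ h x *ᵥ e j = if i = j then 1 else 0) →
    ∀ i, ∑ j, curvAt h x (e i) (e j) ≤ 0

end Pool.Agent.Lib.KR
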