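import Pool.Agent.Lib.KR.Br
import Pool.Agent.Lib.KR39.Dq
import Pool.Agent.Lib.KR51.Big
import Pool.Agent.Lib.KR86.Ad
import Pool.Agent.Lib.KR14.Top

/-! Project kr24: assembly. -/

open scoped Classical Topology ContDiff ComplexOrder Matrix Manifold
open Set MeasureTheory Complex Filter

noncomputable section

namespace Pool.Agent.Lib.KR

open Pool.Agent.Lib.SV (E Pluri)
open Pool.Agent.Lib.HS32 Pool.Agent.Lib.HS32.Mf Pool.Agent.Lib.GH Pool.Agent.Lib.KR91

variable {n : ℕ} {M : Mf n} [M.Cpt] {H : M.Fam (Mat n)}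

/-- The case `k = 1`. -/
theorem one (hn : 0 < n) (hH : M.Kae H) (hr : M.All fun e z => ∀ (w : Fin 1 → E n) (i : Fin 1),
    (∀ a b, star (w a) ⬝ᵥ H e z *ᵥ w b = if a = b then 1 else 0) →
    ∑ j, (rm (H e) z (w i) (w i) (w j) (w j)).re ≤ 0) : M.Semi := by
  have hs : M.Hsc H := fun e he z hz v => by
    have k := kt_rm (HS68.met_loc hH.toMet he hz) (HS68.clo_kl hH.toClo he hz)
    have p := hH.pos e he z hz
    rcases (her_sf p.1).unit (pos_sf p) v with rfl | ⟨r, u, h1, rfl⟩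
    · simp [rm]
    · have := hr e he z hz (fun _ => u) 0 fun a b => by
        rw [if_pos (Subsingleton.elim a b)]
        exact h1
      rw [Fin.sum_univ_one] at this
      rw [k.sc4]
      exact mul_nonpos_of_nonneg_of_nonpos (sq_nonneg _) this
  obtain ⟨P, k, ho, hf⟩ := HS.asPROJ n M H hn hH hs
  obtain ⟨u, G, hp⟩ := HS.asPOS n M H P k hn hH hs ho hf
  exact HS.asPEAK n M H u hn hH hp.sm hp.psd (HS.asSEC4 n M H P G k u hn hp)

/-- The volume of the canonical class is non-negative. -/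
theorem vol_nonneg (hH : M.Kae H) {lam : ℝ} (hl : 0 < lam)
    (hex : ∀ ε : ℝ, 0 < ε → ∃ u, M.SolB H (lam • -M.ric H) ε u) : 0 ≤ M.vol H 0 := by
  have hr := K39.clo_eta hH.toMet
  have hc : Continuous (M.vol H) := by
    have := RB.vol_cont hH.toMet hr.toForm
    simp only [← sub_eq_add_neg] at this
    exact this
  refine ge_of_tendsto (hc.continuousAt.tendsto.mono_left (nhdsWithin_le_nhds (s := Ioi 0)))
    (eventually_mem_nhdsWithin.mono fun δ hδ => ?_)
  have h1 : 0 < 1 + lam := by linarith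
  obtain ⟨u, hu⟩ := hex _ (mul_pos h1 hδ)
  have e : M.gB H (lam • -M.ric H) ((1 + lam) * δ) u = (1 + lam) • (δ • H - M.ric H) + M.hs u := by
    rw [Mf.gB, smul_sub, smul_smul, add_smul 1 lam, one_smul, smul_neg]
    abel
  have a : 0 ≤ ∫ x, M.dq H (M.gB H (lam • -M.ric H) ((1 + lam) * δ) u) x ∂M.mu H :=
    integral_nonneg fun x => (hu.det x).ge.trans' (Real.exp_pos _).le
  rw [e, mCOH n M H _ u hH.toMet (((hH.toClo.smul δ).sub
    ((mHES n M).2.2.2.2.2.2.2.2.1 H hH.toMet)).smul _) hu.sm] at a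
  simp only [dq_smul, integral_const_mul] at a
  exact nonneg_of_mul_nonneg_right a (pow_pos h1 n)

theorem semi_of {al be : ℝ} (hn : 0 < n) (hH : M.Kae H) (ha : 1 ≤ al) (hb : 0 < be)
    (hP : M.All fun e z => Pk (sf (H e z)) (sf (-M.ric H e z)) (rm (H e) z) al be) : M.Semi := by
  have hd : K39.Dn M H al be := fun e he z hz => (hP e he z hz).dq_nn
  have a0 : 0 < al := by linarith
  rcases (vol_nonneg hH (by positivity)
    fun ε hε => K39.solv HS.asAUBIN hn hH a0 hb hd hε).eq_or_lt with h0 | h0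
  · have h1 := K86.sec1_vol HS.asAUBIN hn hH h0.symm hP
    refine K14.stage2 M (C := n * (2 * ((al - 1) / be) + al / be)) hn hH
      (by have := sub_nonneg.2 ha; positivity) (fun e he z hz => ?_) fun e he z hz ξ hξ => ?_
    · obtain ⟨v, v1, v2⟩ := h1 e he z hz
      simp only [Pi.zero_apply, sub_zero]
      exact zero_psd (HS68.met_loc hH.toMet he hz) (hP e he z hz) v1 v2
    · obtain ⟨v, v1, v2⟩ := h1 e he z hz
      exact zero_star (HS68.met_loc hH.toMet he hz) (hP e he z hz) v1 v2 hξ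
  · exact K51.big_tw hn hH (by positivity) (K39.tw_of_dq hb hd) h0

/-- A compact Kähler manifold with non-positive `k`-Ricci curvature, `k < n`, has a semi-ample
canonical bundle. -/
theorem main (n k : ℕ) (hk : 0 < k) (hkn : k < n) (X : Type) [TopologicalSpace X]
    [ChartedSpace (E n) X] [IsManifold 𝓘(ℂ, E n) ω X] [CompactSpace X] [T2Space X]
    [ConnectedSpace X] (h : X → Mat n) (hh : Kaehler h) (hc : KRicNonpos k h) :
    ∃ m : ℕ, 0 < m ∧ ∀ x : X, ∃ s ∈ Pluri n X m, s x ≠ 0 := by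
  obtain ⟨M, hM, H, hH, hr, h4⟩ := bridge hh hc
  refine h4 ?_
  have hn : 0 < n := hk.trans hkn
  rcases (Nat.succ_le_of_lt hk).eq_or_lt with rfl | h2
  · exact one hn hH hr
  have ha : (1 : ℝ) ≤ (k : ℝ) - 1 := by
    have : (2 : ℝ) ≤ k := by exact_mod_cast h2
    linarith
  exact semi_of hn hH ha (sub_pos.2 (by exact_mod_cast hkn)) fun e he z hz =>
    pk_rm (HS68.met_loc hH.toMet he hz) (HS68.clo_kl hH.toClo he hz) h2 hkn (hr e he z hz)

end Pool.Agent.Lib.KR
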